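import Pool.Agent.EVF.StmtsS

/-!
# Squad EVF, row RDC (helper31): reducedness is open
-/

namespace Pool.Agent.EVF.H31

open MvPolynomial Matrix

/-- degree in `y` of a product of entries -/
theorem prod_supp {k r : ℕ} (s : Shape r) (M : FMat k r)
    (h : ∀ i j, ∀ e ∈ (M i j).support, 2 * (s.u * e 0 + s.v * e 1) ≤ s.D i + s.D j)
    (σ : Equiv.Perm (Fin r)) (S : Finset (Fin r)) :
    ∀ e ∈ (∏ i ∈ S, M (σ i) i).support, 2 * (s.v * e 1) ≤ ∑ i ∈ S, (s.D (σ i) + s.D i) := by
  classical
  induction S using Finset.induction_on with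
  | empty =>
    intro e he
    rw [Finset.prod_empty, MvPolynomial.mem_support_iff, MvPolynomial.coeff_one] at he
    have h0 : 0 = e := by
      by_contra hne
      exact he (if_neg hne)
    subst h0
    simp
  | insert i S hi ih =>
    intro e he
    rw [Finset.prod_insert hi] at he
    obtain ⟨a, ha, b, hb, rfl⟩ := Finset.mem_add.1 (MvPolynomial.support_mul _ _ he)
    rw [Finset.sum_insert hi]
    have h1 := h (σ i) i a ha
    have h2 := ih b hb
    have h3 : (a + b) 1 = a 1 + b 1 := rfl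
    rw [h3]
    have h4 : 2 * (s.u * a 0 + s.v * a 1) = 2 * (s.u * a 0) + 2 * (s.v * a 1) := by ring
    have h5 : 2 * (s.v * (a 1 + b 1)) = 2 * (s.v * a 1) + 2 * (s.v * b 1) := by ring
    omega

/-- degree in `y` of the determinant -/
theorem det_supp {k r : ℕ} (s : Shape r) (M : FMat k r)
    (h : ∀ i j, ∀ e ∈ (M i j).support, 2 * (s.u * e 0 + s.v * e 1) ≤ s.D i + s.D j) :
    ∀ e ∈ M.det.support, s.v * e 1 ≤ s.deg := by
  classical
  intro e he
  rw [MvPolynomial.mem_support_iff, Matrix.det_apply, MvPolynomial.coeff_sum] at he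
  obtain ⟨σ, -, hσ⟩ := Finset.exists_ne_zero_of_sum_ne_zero he
  have h1 : e ∈ (∏ i, M (σ i) i).support := by
    rw [MvPolynomial.mem_support_iff]
    intro h0
    apply hσ
    rcases Int.units_eq_one_or (Equiv.Perm.sign σ) with h2 | h2
    · rw [h2, one_smul, h0]
    · rw [h2, Units.neg_smul, one_smul, MvPolynomial.coeff_neg, h0, neg_zero]
  have h2 := prod_supp s M h σ Finset.univ e h1
  rw [Finset.sum_add_distrib, Equiv.sum_comp σ] at h2
  have h3 : s.deg = ∑ i, s.D i := rfl
  rw [h3]
  omega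

section theta

variable {k : ℕ}

/-- `ℤ[t][x,y] → ℤ[t][x][y]` -/
noncomputable def th : MvPolynomial (Fin 2) (MvPolynomial (Fin k) ℤ) →+*
    Polynomial (Polynomial (MvPolynomial (Fin k) ℤ)) :=
  MvPolynomial.eval₂Hom (Polynomial.C.comp Polynomial.C) ![Polynomial.C Polynomial.X, Polynomial.X]

/-- evaluation of the coefficients at `(t, x)` -/
noncomputable def ex (t : Fin k → ℂ) (x : ℂ) : Polynomial (MvPolynomial (Fin k) ℤ) →+* ℂ :=
  Polynomial.eval₂RingHom (aeval t : MvPolynomial (Fin k) ℤ →ₐ[ℤ] ℂ).toRingHom x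

theorem th_eval (G : MvPolynomial (Fin 2) (MvPolynomial (Fin k) ℤ)) (t : Fin k → ℂ) (x y : ℂ) :
    ((th G).map (ex t x)).eval y = ev G t ![x, y] := by
  have h : ((Polynomial.evalRingHom y).comp ((Polynomial.mapRingHom (ex t x)).comp th)) =
      (MvPolynomial.eval₂Hom (aeval t : MvPolynomial (Fin k) ℤ →ₐ[ℤ] ℂ).toRingHom ![x, y]) := by
    apply MvPolynomial.ringHom_ext
    · intro a
      simp only [RingHom.comp_apply, th, MvPolynomial.eval₂Hom_C, Polynomial.coe_mapRingHom,
        Polynomial.map_C, Polynomial.coe_evalRingHom, Polynomial.eval_C, ex,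
        Polynomial.coe_eval₂RingHom, Polynomial.eval₂_C]
    · intro i
      fin_cases i
      · simp [th, ex]
      · simp [th, ex]
  exact congrArg (fun φ => φ G) h

theorem th_deg (G : MvPolynomial (Fin 2) (MvPolynomial (Fin k) ℤ)) (n : ℕ)
    (h : ∀ e ∈ G.support, e 1 ≤ n) : (th G).natDegree ≤ n := by
  rw [th, MvPolynomial.coe_eval₂Hom, MvPolynomial.eval₂_eq']
  refine Polynomial.natDegree_sum_le_of_forall_le _ _ fun e he => ?_
  rw [Fin.prod_univ_two]
  refine le_trans ?_ (h e he)
  simp only [Matrix.cons_val_zero, Matrix.cons_val_one, RingHom.comp_apply]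
  rw [← Polynomial.C_pow, ← mul_assoc, ← Polynomial.C_mul]
  exact Polynomial.natDegree_C_mul_X_pow_le _ _

end theta

/-- a polynomial of degree at most `e` with `e ≥ 1` distinct roots -/
theorem sep_of_ncard {p : Polynomial ℂ} {e : ℕ} (he : e ≠ 0) (hd : p.natDegree ≤ e)
    (hn : {y : ℂ | p.eval y = 0}.ncard = e) : p.natDegree = e ∧ p.Separable := by
  classical
  have hp : p ≠ 0 := by
    rintro rfl
    have h1 : {y : ℂ | (0 : Polynomial ℂ).eval y = 0} = Set.univ := by
      ext y
      simp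
    rw [h1, Set.infinite_univ.ncard] at hn
    exact he hn.symm
  have h1 : {y : ℂ | p.eval y = 0} = (p.roots.toFinset : Set ℂ) := by
    ext y
    rw [Finset.mem_coe, Multiset.mem_toFinset, Polynomial.mem_roots hp]
    rfl
  rw [h1, Set.ncard_coe_finset] at hn
  have h2 := Multiset.toFinset_card_le p.roots
  have h3 := p.card_roots'
  have h4 : p.natDegree = e := by omega
  refine ⟨h4, ?_⟩
  have h5 : p.roots.toFinset.card = p.roots.card := by omega
  exact (Polynomial.nodup_roots_iff_of_splits hp (IsAlgClosed.splits p)).1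
    (Multiset.toFinset_card_eq_card_iff_nodup.1 h5)

theorem ncard_of_sep {p : Polynomial ℂ} (hp : p.Separable) :
    {y : ℂ | p.eval y = 0}.ncard = p.natDegree := by
  classical
  have hp0 : p ≠ 0 := hp.ne_zero
  have h1 : {y : ℂ | p.eval y = 0} = (p.roots.toFinset : Set ℂ) := by
    ext y
    rw [Finset.mem_coe, Multiset.mem_toFinset, Polynomial.mem_roots hp0]
    rfl
  rw [h1, Set.ncard_coe_finset, Multiset.toFinset_card_of_nodup (Polynomial.nodup_roots hp)]
  exact (IsAlgClosed.splits p).natDegree_eq_card_roots.symm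

/-- row RDC -/
theorem rdc : RdcStmt := by
  classical
  intro k r s M hg hM t₀ ht₀
  obtain ⟨x₀, hx₀⟩ := ht₀
  set e : ℕ := s.deg / s.v with he
  have he0 : e ≠ 0 := by
    have h1 := Nat.div_pos (le_of_lt hg.lt) hg.v_pos
    omega
  set f : Polynomial (Polynomial (MvPolynomial (Fin k) ℤ)) := th M.det with hf
  have hfd : f.natDegree ≤ e := by
    apply th_deg
    intro a ha
    rw [he, Nat.le_div_iff_mul_le hg.v_pos, mul_comm]
    exact det_supp s M hM a ha
  have hfd' : (Polynomial.derivative f).natDegree ≤ e - 1 :=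
    le_trans (Polynomial.natDegree_derivative_le f) (Nat.sub_le_sub_right hfd 1)
  set ρ := Polynomial.resultant f (Polynomial.derivative f) e (e - 1) with hρ
  obtain ⟨p, q, -, -, hpq⟩ := Polynomial.exists_mul_add_mul_eq_C_resultant (m := e) (n := e - 1)
    f (Polynomial.derivative f) hfd hfd' (Or.inl he0)
  have hmapd : ∀ t x, (f.map (ex t x)).natDegree ≤ e := fun t x =>
    le_trans Polynomial.natDegree_map_le hfd
  -- the point `(t₀, x₀)`
  have h0 : ex t₀ x₀ (f.coeff e * ρ) ≠ 0 := by
    have h1 : {y : ℂ | (f.map (ex t₀ x₀)).eval y = 0}.ncard = e := by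
      rw [← hx₀]
      congr 1
      ext y
      rw [Set.mem_setOf_eq, Set.mem_setOf_eq, hf, th_eval]
    obtain ⟨h2, h3⟩ := sep_of_ncard he0 (hmapd t₀ x₀) h1
    rw [map_mul]
    refine mul_ne_zero ?_ ?_
    · rw [← Polynomial.coeff_map]
      have h4 : (f.map (ex t₀ x₀)).leadingCoeff ≠ 0 :=
        Polynomial.leadingCoeff_ne_zero.2 h3.ne_zero
      rwa [Polynomial.leadingCoeff, h2] at h4
    · rw [hρ, ← Polynomial.resultant_map_map, ← Polynomial.derivative_map]
      have h4 := Polynomial.resultant_ne_zero _ _ h3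
      have h5 : (Polynomial.derivative (f.map (ex t₀ x₀))).natDegree = e - 1 := by
        rw [Polynomial.natDegree_derivative, h2]
      rwa [h2, h5] at h4
  obtain ⟨i, hi⟩ : ∃ i, aeval t₀ ((f.coeff e * ρ).coeff i) ≠ 0 := by
    by_contra hcon
    simp only [not_exists, not_not] at hcon
    apply h0
    rw [ex, Polynomial.coe_eval₂RingHom, Polynomial.eval₂_eq_sum_range]
    refine Finset.sum_eq_zero fun i _ => ?_
    have h1 : (aeval t₀ : MvPolynomial (Fin k) ℤ →ₐ[ℤ] ℂ).toRingHom
      ((f.coeff e * ρ).coeff i) = 0 := hcon i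
    rw [h1, zero_mul]
  refine ⟨(f.coeff e * ρ).coeff i, ?_, ?_⟩
  · intro h
    rw [h, map_zero] at hi
    exact hi rfl
  · intro t ht
    -- a good `x`
    have h1 : (f.coeff e * ρ).map (aeval t : MvPolynomial (Fin k) ℤ →ₐ[ℤ] ℂ).toRingHom ≠ 0 := by
      intro h
      have h2 := congrArg (fun p => Polynomial.coeff p i) h
      rw [Polynomial.coeff_map, Polynomial.coeff_zero] at h2
      exact ht h2
    obtain ⟨x, hx⟩ : ∃ x, ((f.coeff e * ρ).map
        (aeval t : MvPolynomial (Fin k) ℤ →ₐ[ℤ] ℂ).toRingHom).eval x ≠ 0 := by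
      by_contra hcon
      simp only [not_exists, not_not] at hcon
      exact h1 (Polynomial.funext fun x => by rw [hcon, Polynomial.eval_zero])
    rw [Polynomial.eval_map] at hx
    have hx' : ex t x (f.coeff e * ρ) ≠ 0 := hx
    rw [map_mul] at hx'
    have h2 : (f.map (ex t x)).coeff e ≠ 0 := by
      rw [Polynomial.coeff_map]
      exact left_ne_zero_of_mul hx'
    have h3 : (f.map (ex t x)).natDegree = e :=
      le_antisymm (hmapd t x) (Polynomial.le_natDegree_of_ne_zero h2)
    have h4 : (f.map (ex t x)).Separable := by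
      have h5 := congrArg (Polynomial.map (ex t x)) hpq
      rw [Polynomial.map_add, Polynomial.map_mul, Polynomial.map_mul, Polynomial.map_C,
        ← Polynomial.derivative_map] at h5
      have h6 : ex t x ρ ≠ 0 := right_ne_zero_of_mul hx'
      refine ⟨Polynomial.C (ex t x ρ)⁻¹ * p.map (ex t x),
        Polynomial.C (ex t x ρ)⁻¹ * q.map (ex t x), ?_⟩
      have h7 : Polynomial.C (ex t x ρ)⁻¹ * (f.map (ex t x) * p.map (ex t x) +
          Polynomial.derivative (f.map (ex t x)) * q.map (ex t x)) = 1 := by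
        rw [h5, ← Polynomial.C_mul, ← hρ, inv_mul_cancel₀ h6, Polynomial.C_1]
      rw [← h7]
      ring
    refine ⟨x, ?_⟩
    rw [← he, ← h3, ← ncard_of_sep h4]
    congr 1
    ext y
    rw [Set.mem_setOf_eq, Set.mem_setOf_eq, hf, th_eval]

end Pool.Agent.EVF.H31
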